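import Mathlib

set_option autoImplicit false

/-!
# Nowhere Gâteaux differentiable Lipschitz homeomorphisms of nonseparable Hilbert spaces
-/

namespace Pool.Agent.Results.MP_714461_an.NowhereGateaux

open Filter Topology

/-- Lipschitz homeomorphisms: bijections which are Lipschitz together with their inverse. -/
def IsLipschitzHomeo {X Y : Type*} [MetricSpace X] [MetricSpace Y] (φ : X → Y) : Prop :=
  Function.Bijective φ ∧ (∃ K, LipschitzWith K φ) ∧ ∃ K, AntilipschitzWith K φ

/-- Gâteaux differentiability at a point: the directional derivatives exist in norm in every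
direction and are given by a bounded linear operator. -/
def GateauxDiffAt {X Y : Type*} [NormedAddCommGroup X] [NormedSpace ℝ X] [NormedAddCommGroup Y]
    [NormedSpace ℝ Y] (φ : X → Y) (x₀ : X) : Prop :=
  ∃ T : X →L[ℝ] Y, ∀ h : X,
    Tendsto (fun t : ℝ => t⁻¹ • (φ (x₀ + t • h) - φ x₀)) (𝓝[≠] 0) (𝓝 (T h))

/-- The one-dimensional homeomorphism. -/
noncomputable def hh (t : ℝ) : ℝ := max t (2 * t)

/-- Its inverse. -/
noncomputable def kk (t : ℝ) : ℝ := min t (t / 2)

theorem hh_kk (t : ℝ) : hh (kk t) = t := by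
  unfold hh kk
  rcases le_total 0 t with h | h
  · rw [min_eq_right (by linarith), max_eq_right (by linarith)]; ring
  · rw [min_eq_left (by linarith), max_eq_left (by linarith)]

theorem hh_zero : hh 0 = 0 := by simp [hh]
theorem kk_zero : kk 0 = 0 := by simp [kk]
theorem hh_pos {t : ℝ} (h : 0 < t) : hh t = 2 * t := max_eq_right (by linarith)
theorem hh_neg {t : ℝ} (h : t < 0) : hh t = t := max_eq_left (by linarith)

theorem hh_upper (s t : ℝ) : |hh s - hh t| ≤ 2 * |s - t| := by
  unfold hh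
  rcases le_total 0 s with h1 | h1 <;> rcases le_total 0 t with h2 | h2 <;>
    rcases le_total s t with h3 | h3
  all_goals
    first
      | rw [max_eq_right (by linarith : s ≤ 2 * s)]
      | rw [max_eq_left (by linarith : 2 * s ≤ s)]
    first
      | rw [max_eq_right (by linarith : t ≤ 2 * t)]
      | rw [max_eq_left (by linarith : 2 * t ≤ t)]
    first
      | rw [abs_of_nonneg (by linarith : 0 ≤ s - t)]
      | rw [abs_of_nonpos (by linarith : s - t ≤ 0)]
    first
      | linarith
      | (rw [abs_le]; constructor <;> linarith)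

theorem hh_lower (s t : ℝ) : |s - t| ≤ |hh s - hh t| := by
  wlog hst : t ≤ s generalizing s t
  · rw [abs_sub_comm s t, abs_sub_comm (hh s)]
    exact this t s (le_of_not_ge hst)
  · have h1 : s - t ≤ hh s - hh t := by
      unfold hh
      rcases le_total 0 s with h1 | h1 <;> rcases le_total 0 t with h2 | h2
      all_goals
        first
          | rw [max_eq_right (by linarith : s ≤ 2 * s)]
          | rw [max_eq_left (by linarith : 2 * s ≤ s)]
        first
          | rw [max_eq_right (by linarith : t ≤ 2 * t)]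
          | rw [max_eq_left (by linarith : 2 * t ≤ t)]
        try linarith
    rw [abs_of_nonneg (sub_nonneg.mpr hst)]
    exact h1.trans (le_abs_self _)

theorem abs_hh_le (t : ℝ) : |hh t| ≤ 2 * |t| := by
  have := hh_upper t 0
  rwa [hh_zero, sub_zero, sub_zero] at this

theorem abs_kk_le (t : ℝ) : |kk t| ≤ |t| := by
  have := hh_lower (kk t) 0
  rwa [hh_zero, hh_kk, sub_zero, sub_zero] at this

section Sequence

variable {ι : Type*}

/-- The homeomorphism of `ℓ²(ι)` which acts on every coordinate by `hh`. -/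
noncomputable def Φ (x : lp (fun _ : ι => ℝ) 2) : lp (fun _ : ι => ℝ) 2 :=
  ⟨fun i => hh (x i), ((lp.memℓp x).const_mul 2).mono' fun i => by
    rw [Real.norm_eq_abs, Real.norm_eq_abs, abs_mul, abs_of_pos (by norm_num : (0 : ℝ) < 2)]
    exact abs_hh_le _⟩

theorem Φ_apply (x : lp (fun _ : ι => ℝ) 2) (i : ι) : Φ x i = hh (x i) := rfl

theorem Φ_surjective : Function.Surjective (Φ (ι := ι)) := by
  intro y
  refine ⟨⟨fun i => kk (y i), (lp.memℓp y).mono' fun i => by
    rw [Real.norm_eq_abs, Real.norm_eq_abs]; exact abs_kk_le _⟩, ?_⟩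
  ext i
  exact hh_kk (y i)

theorem Φ_upper (x y : lp (fun _ : ι => ℝ) 2) : ‖Φ x - Φ y‖ ≤ 2 * ‖x - y‖ := by
  have h1 : ‖Φ x - Φ y‖ ≤ ‖(2 : ℝ) • (x - y)‖ := by
    apply lp.norm_mono (by norm_num)
    intro i
    change ‖hh (x i) - hh (y i)‖ ≤ ‖2 * (x i - y i)‖
    rw [Real.norm_eq_abs, Real.norm_eq_abs, abs_mul, abs_of_pos (by norm_num : (0 : ℝ) < 2)]
    exact hh_upper _ _
  rwa [norm_smul, Real.norm_eq_abs, abs_of_pos (by norm_num : (0 : ℝ) < 2)] at h1

theorem Φ_lower (x y : lp (fun _ : ι => ℝ) 2) : ‖x - y‖ ≤ ‖Φ x - Φ y‖ := by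
  apply lp.norm_mono (by norm_num)
  intro i
  change ‖x i - y i‖ ≤ ‖hh (x i) - hh (y i)‖
  rw [Real.norm_eq_abs, Real.norm_eq_abs]
  exact hh_lower _ _

theorem exists_zero_coord [Uncountable ι] (x : lp (fun _ : ι => ℝ) 2) : ∃ i, x i = 0 := by
  by_contra h
  push Not at h
  have h1 : Summable fun i => ‖x i‖ ^ (2 : ENNReal).toReal := (lp.memℓp x).summable (by norm_num)
  have h2 := h1.countable_support
  have h3 : Function.support (fun i => ‖x i‖ ^ (2 : ENNReal).toReal) = Set.univ := by
    ext i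
    simp only [Function.mem_support, Set.mem_univ, iff_true]
    have : 0 < ‖x i‖ := norm_pos_iff.mpr (h i)
    positivity
  rw [h3] at h2
  exact Set.not_countable_univ h2

theorem Φ_not_gateaux [Uncountable ι] (x : lp (fun _ : ι => ℝ) 2) : ¬ GateauxDiffAt Φ x := by
  classical
  rintro ⟨T, hT⟩
  obtain ⟨i, hi⟩ := exists_zero_coord x
  set e : lp (fun _ : ι => ℝ) 2 := lp.single 2 i (1 : ℝ) with he
  have hei : e i = 1 := lp.single_apply_self 2 i 1
  have h1 := hT e
  have h2 : Tendsto (fun t : ℝ => t⁻¹ * hh t) (𝓝[≠] 0) (𝓝 (T e i)) := by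
    have h3 : Continuous fun y : lp (fun _ : ι => ℝ) 2 => y i :=
      (lp.evalCLM ℝ (fun _ : ι => ℝ) 2 i).continuous
    have h4 := (h3.tendsto (T e)).comp h1
    refine h4.congr fun t => ?_
    change t⁻¹ * (hh (x i + t * e i) - hh (x i)) = t⁻¹ * hh t
    rw [hi, hei, hh_zero, zero_add, mul_one, sub_zero]
  have h5 : Tendsto (fun t : ℝ => t⁻¹ * hh t) (𝓝[>] 0) (𝓝 (T e i)) :=
    h2.mono_left (nhdsWithin_mono _ fun t ht => ne_of_gt ht)
  have h6 : Tendsto (fun t : ℝ => t⁻¹ * hh t) (𝓝[<] 0) (𝓝 (T e i)) :=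
    h2.mono_left (nhdsWithin_mono _ fun t ht => ne_of_lt ht)
  have h7 : Tendsto (fun t : ℝ => t⁻¹ * hh t) (𝓝[>] 0) (𝓝 2) := by
    apply tendsto_const_nhds.congr'
    filter_upwards [self_mem_nhdsWithin] with t ht
    rw [hh_pos ht]
    field_simp [ne_of_gt (show (0 : ℝ) < t from ht)]
  have h8 : Tendsto (fun t : ℝ => t⁻¹ * hh t) (𝓝[<] 0) (𝓝 1) := by
    apply tendsto_const_nhds.congr'
    filter_upwards [self_mem_nhdsWithin] with t ht
    rw [hh_neg ht, inv_mul_cancel₀ (ne_of_lt ht)]
  have h9 := tendsto_nhds_unique h5 h7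
  have h10 := tendsto_nhds_unique h6 h8
  rw [h9] at h10
  norm_num at h10

end Sequence

/-- The transfer to an arbitrary nonseparable Hilbert space. -/
theorem exists_homeo (H : Type*) [NormedAddCommGroup H] [InnerProductSpace ℝ H] [CompleteSpace H]
    (hH : ¬ TopologicalSpace.SeparableSpace H) :
    ∃ φ : H → H, IsLipschitzHomeo φ ∧ ∀ x₀ : H, ¬ GateauxDiffAt φ x₀ := by
  obtain ⟨w, b, hb⟩ := exists_hilbertBasis ℝ H
  have hw : Uncountable w := by
    rw [← not_countable_iff]
    intro hc
    apply hH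
    have h1 : TopologicalSpace.IsSeparable (Set.range b) := (Set.countable_range b).isSeparable
    have h2 : TopologicalSpace.IsSeparable
        ((Submodule.span ℝ (Set.range b) : Submodule ℝ H) : Set H) := h1.span
    have h3 := h2.closure
    have h4 : closure ((Submodule.span ℝ (Set.range b) : Submodule ℝ H) : Set H) = Set.univ := by
      have h5 := b.dense_span
      rw [← Submodule.topologicalClosure_coe, h5]
      rfl
    rw [h4] at h3
    exact TopologicalSpace.isSeparable_univ_iff.mp h3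
  let e := b.repr
  refine ⟨fun x => e.symm (Φ (e x)), ⟨?_, ⟨2, ?_⟩, ⟨1, ?_⟩⟩, ?_⟩
  · constructor
    · intro x y hxy
      have h1 : Φ (e x) = Φ (e y) := e.symm.injective hxy
      have h2 := Φ_lower (e x) (e y)
      rw [h1, sub_self, norm_zero] at h2
      exact e.injective (sub_eq_zero.mp (norm_le_zero_iff.mp h2))
    · intro y
      obtain ⟨x, hx⟩ := Φ_surjective (e y)
      refine ⟨e.symm x, ?_⟩
      change e.symm (Φ (e (e.symm x))) = y
      rw [LinearIsometryEquiv.apply_symm_apply, hx, LinearIsometryEquiv.symm_apply_apply]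
  · apply LipschitzWith.of_dist_le_mul
    intro x y
    rw [LinearIsometryEquiv.dist_map, dist_eq_norm, dist_eq_norm, ← LinearIsometryEquiv.norm_map e,
      map_sub]
    exact Φ_upper _ _
  · apply AntilipschitzWith.of_le_mul_dist
    intro x y
    rw [LinearIsometryEquiv.dist_map, dist_eq_norm, dist_eq_norm, ← LinearIsometryEquiv.norm_map e,
      map_sub, NNReal.coe_one, one_mul]
    exact Φ_lower _ _
  · rintro x₀ ⟨T, hT⟩
    apply Φ_not_gateaux (e x₀)
    refine ⟨(e : H →L[ℝ] lp (fun _ : w => ℝ) 2) ∘L T ∘L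
      (e.symm : lp (fun _ : w => ℝ) 2 →L[ℝ] H), fun h => ?_⟩
    have h1 := hT (e.symm h)
    have h2 := (e.continuous.tendsto (T (e.symm h))).comp h1
    refine h2.congr fun t => ?_
    change e (t⁻¹ • (e.symm (Φ (e (x₀ + t • e.symm h))) - e.symm (Φ (e x₀)))) = _
    rw [map_smul, map_sub, LinearIsometryEquiv.apply_symm_apply,
      LinearIsometryEquiv.apply_symm_apply, map_add, map_smul,
      LinearIsometryEquiv.apply_symm_apply]

theorem not_separable : ¬ TopologicalSpace.SeparableSpace (lp (fun _ : ℝ => ℝ) 2) := by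
  classical
  intro h
  have hd : Pairwise (Function.onFun Disjoint
      fun i : ℝ => Metric.ball (lp.single 2 i (1 : ℝ) : lp (fun _ : ℝ => ℝ) 2) (1 / 2)) := by
    intro i j hij
    rw [Function.onFun, Set.disjoint_left]
    intro x hx hy
    rw [Metric.mem_ball] at hx hy
    have h1 : dist (lp.single 2 i (1 : ℝ) : lp (fun _ : ℝ => ℝ) 2) (lp.single 2 j (1 : ℝ)) < 1 := by
      have := dist_triangle_left (lp.single 2 i (1 : ℝ) : lp (fun _ : ℝ => ℝ) 2)
        (lp.single 2 j (1 : ℝ)) x
      linarith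
    rw [dist_eq_norm] at h1
    have h2 := lp.norm_apply_le_norm (p := 2) (by norm_num)
      ((lp.single 2 i (1 : ℝ) : lp (fun _ : ℝ => ℝ) 2) - lp.single 2 j (1 : ℝ)) i
    have h3 : ((lp.single 2 i (1 : ℝ) : lp (fun _ : ℝ => ℝ) 2) - lp.single 2 j (1 : ℝ) :
        lp (fun _ : ℝ => ℝ) 2) i = 1 := by
      rw [lp.coeFn_sub, Pi.sub_apply, lp.single_apply_self, lp.single_apply_ne 2 j _ hij, sub_zero]
    rw [h3, norm_one] at h2
    linarith
  have hc := Pairwise.countable_of_isOpen_disjoint hd (fun _ => Metric.isOpen_ball)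
    (fun i => ⟨_, Metric.mem_ball_self (by norm_num)⟩)
  exact not_countable (α := ℝ) hc

/-- There are nonseparable real Hilbert spaces, and on every nonseparable real Hilbert space there
is a Lipschitz homeomorphism of the space onto itself which is Gâteaux differentiable at no
point. -/
theorem result :
    (∃ (H : Type) (_ : NormedAddCommGroup H) (_ : InnerProductSpace ℝ H),
      CompleteSpace H ∧ ¬ TopologicalSpace.SeparableSpace H) ∧
    ∀ (H : Type*) [NormedAddCommGroup H] [InnerProductSpace ℝ H] [CompleteSpace H],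
      ¬ TopologicalSpace.SeparableSpace H →
      ∃ φ : H → H, IsLipschitzHomeo φ ∧ ∀ x₀ : H, ¬ GateauxDiffAt φ x₀ :=
  ⟨⟨lp (fun _ : ℝ => ℝ) 2, inferInstance, inferInstance, inferInstance, not_separable⟩,
    fun H _ _ _ hH => exists_homeo H hH⟩

end Pool.Agent.Results.MP_714461_an.NowhereGateaux
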